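import Pool.Agent.W989.RG.Stm

set_option autoImplicit false

namespace Pool.Agent.W584.RG

open Finset Polynomial

/-- the trace of a root of a rational number -/
theorem trace_root (L : IntermediateField ℚ ℝ) [FiniteDimensional ℚ L] (β : L) (m : ℕ) (b : ℚ)
    (hm : 1 ≤ m) (hpos : 0 < (β : ℝ)) (hb : (β : ℝ) ^ m = (b : ℝ))
    (hirr : ∀ x : ℚ, (β : ℝ) ≠ (x : ℝ)) : Algebra.trace ℚ L β = 0 := by
  have hint : IsIntegral ℚ β := IsIntegral.of_finite ℚ β
  set p := minpoly ℚ β with hp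
  have hmon : p.Monic := minpoly.monic hint
  have hβm : β ^ m = algebraMap ℚ L b := by
    apply Subtype.ext
    rw [IntermediateField.coe_pow, hb]
    rfl
  have hdvd : p ∣ X ^ m - C b := by
    apply minpoly.dvd
    rw [map_sub, map_pow, aeval_X, aeval_C, hβm, sub_self]
  have hroot : ∀ z ∈ (p.map (algebraMap ℚ ℂ)).roots, ‖z‖ = (β : ℝ) := by
    intro z hz
    have h1 : (p.map (algebraMap ℚ ℂ)).IsRoot z := isRoot_of_mem_roots hz
    have h2 : (X ^ m - C b : ℚ[X]).eval₂ (algebraMap ℚ ℂ) z = 0 := by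
      obtain ⟨q, hq⟩ := hdvd
      rw [hq, eval₂_mul]
      rw [IsRoot.def, eval_map] at h1
      rw [h1, zero_mul]
    rw [eval₂_sub, eval₂_pow, eval₂_X, eval₂_C, sub_eq_zero] at h2
    have h3 : ‖z‖ ^ m = (β : ℝ) ^ m := by
      rw [← norm_pow, h2, hb]
      have h4 : (0 : ℝ) < b := by rw [← hb]; positivity
      have h5 : (algebraMap ℚ ℂ) b = ((b : ℝ) : ℂ) := by simp
      rw [h5, Complex.norm_real, Real.norm_of_nonneg h4.le]
    exact (pow_left_inj₀ (norm_nonneg z) hpos.le (by omega)).1 h3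
  have hdeg : p.natDegree ≠ 1 := by
    intro h
    rw [hp, minpoly.natDegree_eq_one_iff] at h
    obtain ⟨x, hx⟩ := h
    apply hirr x
    rw [← hx]
    rfl
  have hdeg0 : 0 < p.natDegree := minpoly.natDegree_pos hint
  set h := p.natDegree with hh
  have hsplit : (p.map (algebraMap ℚ ℂ)).Splits := IsAlgClosed.splits _
  have hc0 : ‖(algebraMap ℚ ℂ) (p.coeff 0)‖ = (β : ℝ) ^ h := by
    have e1 := hsplit.coeff_zero_eq_prod_roots_of_monic (hmon.map _)
    rw [coeff_map] at e1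
    rw [e1, norm_mul, norm_pow, norm_neg, norm_one, one_pow, one_mul]
    have e2 : ‖(p.map (algebraMap ℚ ℂ)).roots.prod‖ =
        ((p.map (algebraMap ℚ ℂ)).roots.map (fun z => ‖z‖)).prod := by
      exact (Multiset.prod_hom _ (normHom : ℂ →*₀ ℝ)).symm
    rw [e2, Multiset.map_congr rfl hroot, Multiset.map_const', Multiset.prod_replicate]
    congr 1
    rw [← hsplit.natDegree_eq_card_roots, natDegree_map]
  have hβh : (β : ℝ) ^ h = ((|p.coeff 0| : ℚ) : ℝ) := by
    rw [← hc0]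
    have h5 : (algebraMap ℚ ℂ) (p.coeff 0) = (((p.coeff 0 : ℚ) : ℝ) : ℂ) := by simp
    rw [h5, Complex.norm_real, Real.norm_eq_abs]
    push_cast
    rfl
  have hβh' : β ^ h = algebraMap ℚ L |p.coeff 0| := by
    apply Subtype.ext
    rw [IntermediateField.coe_pow, hβh]
    rfl
  have hdvd2 : p ∣ X ^ h - C |p.coeff 0| := by
    apply minpoly.dvd
    rw [map_sub, map_pow, aeval_X, aeval_C, hβh', sub_self]
  have heq : X ^ h - C |p.coeff 0| = p :=
    eq_of_monic_of_dvd_of_natDegree_le hmon (monic_X_pow_sub_C _ (by omega)) hdvd2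
      (by rw [natDegree_X_pow_sub_C])
  have hnext : p.nextCoeff = 0 := by
    rw [nextCoeff_of_natDegree_pos hdeg0, ← hh]
    conv_lhs => rw [← heq]
    rw [coeff_sub, coeff_X_pow, coeff_C, if_neg (by omega), if_neg (by omega), sub_zero]
  rw [trace_eq_finrank_mul_minpoly_nextCoeff, ← hp, hnext, neg_zero, mul_zero]

/-- the valuation of a product of prime powers -/
theorem val_prod {W : Type} [Fintype W] [DecidableEq W] (pr : W → ℕ) (hpr : ∀ w, (pr w).Prime)
    (hinj : Function.Injective pr) (k : W → ℕ) (a : W) :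
    padicValRat (pr a) ((∏ w, (pr w) ^ (k w) : ℕ) : ℚ) = k a := by
  rw [padicValRat.of_nat, ← Nat.factorization_def _ (hpr a),
    Nat.factorization_prod (fun w _ => pow_ne_zero _ (hpr w).ne_zero), Finsupp.finsetSum_apply]
  rw [Finset.sum_eq_single a]
  · rw [Nat.factorization_pow, Finsupp.smul_apply, (hpr a).factorization, Finsupp.single_eq_same]
    simp
  · intro w _ hw
    rw [Nat.factorization_pow, Finsupp.smul_apply, (hpr w).factorization,
      Finsupp.single_eq_of_ne (fun h => hw (hinj h.symm)), smul_zero]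
  · intro h
    exact absurd (Finset.mem_univ a) h

theorem t_TI : Pool.Agent.W989.RG.S_TI := by
  intro W _ _ m pr c hpr hinj hsum e0
  set α : W → ℝ := fun w => (pr w : ℝ) ^ (1 / (m : ℝ)) with hα
  have hprpos : ∀ w, (0 : ℝ) < pr w := fun w => by exact_mod_cast (hpr w).pos
  have hαpos : ∀ w, 0 < α w := fun w => Real.rpow_pos_of_pos (hprpos w) _
  have hmpos : ∀ w : W, 0 < m := fun w => (e0 w).pos
  have hαm : ∀ w, α w ^ m = pr w := by
    intro w
    have hm := hmpos w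
    rw [hα]
    simp only
    rw [← Real.rpow_natCast, ← Real.rpow_mul (hprpos w).le, one_div,
      inv_mul_cancel₀ (by exact_mod_cast hm.ne'), Real.rpow_one]
  let L : IntermediateField ℚ ℝ := IntermediateField.adjoin ℚ (Set.range α)
  have hfd : FiniteDimensional ℚ L := by
    apply IntermediateField.finiteDimensional_adjoin
    rintro _ ⟨w, rfl⟩
    apply IsIntegral.of_pow (hmpos w)
    rw [hαm w]
    have : ((pr w : ℕ) : ℝ) = algebraMap ℚ ℝ (pr w) := by simp
    rw [this]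
    exact isIntegral_algebraMap
  let αL : W → L := fun w => ⟨α w, IntermediateField.subset_adjoin ℚ _ ⟨w, rfl⟩⟩
  have hαL : ∀ w, ((αL w : L) : ℝ) = α w := fun w => rfl
  let β : (W → Fin m) → L := fun e => (∏ w, αL w ^ (e w : ℕ)) * (∏ w, αL w ^ (e0 w : ℕ))⁻¹
  have hcoe : ∀ e : W → Fin m, (((∏ w, αL w ^ (e w : ℕ) : L)) : ℝ) = ∏ w, α w ^ (e w : ℕ) := by
    intro e
    have := map_prod (algebraMap L ℝ) (fun w => αL w ^ (e w : ℕ)) Finset.univ
    rw [show ((∏ w, αL w ^ (e w : ℕ) : L) : ℝ) = algebraMap L ℝ (∏ w, αL w ^ (e w : ℕ)) from rfl,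
      this]
    refine Finset.prod_congr rfl fun w _ => ?_
    rw [map_pow]
    rfl
  have hAne : (∏ w, αL w ^ (e0 w : ℕ) : L) ≠ 0 := by
    intro h
    have h1 := hcoe e0
    rw [h] at h1
    have h2 : 0 < ∏ w, α w ^ (e0 w : ℕ) := Finset.prod_pos fun w _ => pow_pos (hαpos w) _
    have h3 : ((0 : L) : ℝ) = 0 := rfl
    linarith
  have hβcoe : ∀ e, ((β e : L) : ℝ) = (∏ w, α w ^ (e w : ℕ)) / ∏ w, α w ^ (e0 w : ℕ) := by
    intro e
    have h1 : ((β e : L) : ℝ) = ((∏ w, αL w ^ (e w : ℕ) : L) : ℝ) *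
      ((∏ w, αL w ^ (e0 w : ℕ) : L) : ℝ)⁻¹ := rfl
    rw [h1, hcoe, hcoe, div_eq_mul_inv]
  have hβ0 : β e0 = 1 := mul_inv_cancel₀ hAne
  have hsumL : ∑ e, (c e) • β e = 0 := by
    have h1 : ∑ e, (algebraMap ℚ L (c e)) * (∏ w, αL w ^ (e w : ℕ)) = 0 := by
      apply (algebraMap L ℝ).injective
      rw [map_sum, map_zero, ← hsum]
      refine Finset.sum_congr rfl fun e _ => ?_
      rw [map_mul]
      have h2 : (algebraMap L ℝ) (∏ w, αL w ^ (e w : ℕ)) = ∏ w, α w ^ (e w : ℕ) := hcoe e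
      rw [h2]
      rfl
    have h2 : ∑ e, (c e) • β e = (∑ e, (algebraMap ℚ L (c e)) * (∏ w, αL w ^ (e w : ℕ))) *
        (∏ w, αL w ^ (e0 w : ℕ))⁻¹ := by
      rw [Finset.sum_mul]
      refine Finset.sum_congr rfl fun e _ => ?_
      rw [Algebra.smul_def, mul_assoc]
    rw [h2, h1, zero_mul]
  have htr : ∑ e, c e * Algebra.trace ℚ L (β e) = 0 := by
    have h1 := congrArg (Algebra.trace ℚ L) hsumL
    rw [map_sum, map_zero] at h1
    rw [← h1]
    refine Finset.sum_congr rfl fun e _ => ?_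
    rw [map_smul, smul_eq_mul]
  rw [Finset.sum_eq_single e0] at htr
  · rw [hβ0] at htr
    have h1 : Algebra.trace ℚ L (1 : L) = Module.finrank ℚ L := by
      have := Algebra.trace_algebraMap (R := ℚ) (S := L) (1 : ℚ)
      rw [map_one] at this
      rw [this]
      simp
    rw [h1] at htr
    rcases mul_eq_zero.1 htr with h2 | h2
    · exact h2
    · have h3 : 0 < Module.finrank ℚ L := Module.finrank_pos
      have h4 : Module.finrank ℚ L = 0 := by exact_mod_cast h2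
      omega
  · intro e _ hne
    obtain ⟨a, ha⟩ : ∃ a, e a ≠ e0 a := by
      by_contra hcon
      push Not at hcon
      exact hne (funext hcon)
    have hm : 0 < m := hmpos a
    have hpow : ∀ k : W → Fin m, (∏ w, α w ^ (k w : ℕ)) ^ m =
        (((∏ w, (pr w) ^ (k w : ℕ) : ℕ) : ℚ) : ℝ) := by
      intro k
      rw [← Finset.prod_pow]
      push_cast
      refine Finset.prod_congr rfl fun w _ => ?_
      rw [← pow_mul, mul_comm, pow_mul, hαm]
    have hβpos : 0 < ((β e : L) : ℝ) := by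
      rw [hβcoe]
      exact div_pos (Finset.prod_pos fun w _ => pow_pos (hαpos w) _)
        (Finset.prod_pos fun w _ => pow_pos (hαpos w) _)
    have hβm : ((β e : L) : ℝ) ^ m = ((((∏ w, (pr w) ^ (e w : ℕ) : ℕ) : ℚ) /
        ((∏ w, (pr w) ^ (e0 w : ℕ) : ℕ) : ℚ) : ℚ) : ℝ) := by
      rw [hβcoe, div_pow, hpow, hpow, Rat.cast_div]
    rw [trace_root L (β e) m _ hm hβpos hβm ?_, mul_zero]
    intro x hx
    have : Fact (pr a).Prime := ⟨hpr a⟩
    have hN : ∀ k : W → Fin m, ((∏ w, (pr w) ^ (k w : ℕ) : ℕ) : ℚ) ≠ 0 := by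
      intro k
      have : (∏ w, (pr w) ^ (k w : ℕ) : ℕ) ≠ 0 :=
        Finset.prod_ne_zero_iff.2 fun w _ => pow_ne_zero _ (hpr w).ne_zero
      exact_mod_cast this
    have hx1 : x ^ m = ((∏ w, (pr w) ^ (e w : ℕ) : ℕ) : ℚ) /
        ((∏ w, (pr w) ^ (e0 w : ℕ) : ℕ) : ℚ) := by
      rw [hx] at hβm
      exact_mod_cast hβm
    have hx0 : x ≠ 0 := by
      intro h
      rw [h] at hx
      rw [hx] at hβpos
      simp at hβpos
    have hv := congrArg (padicValRat (pr a)) hx1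
    rw [padicValRat.pow, padicValRat.div (hN e) (hN e0),
      val_prod pr hpr hinj (fun w => (e w : ℕ)) a, val_prod pr hpr hinj (fun w => (e0 w : ℕ)) a]
      at hv
    have h1 : ((e a : ℕ) : ℤ) < m := by exact_mod_cast (e a).2
    have h2 : ((e0 a : ℕ) : ℤ) < m := by exact_mod_cast (e0 a).2
    have h3 : ((e a : ℕ) : ℤ) ≠ ((e0 a : ℕ) : ℤ) := by
      intro h
      apply ha
      apply Fin.ext
      exact_mod_cast h
    have h4 : (0 : ℤ) ≤ ((e a : ℕ) : ℤ) := Int.natCast_nonneg _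
    have h5 : (0 : ℤ) ≤ ((e0 a : ℕ) : ℤ) := Int.natCast_nonneg _
    have h6 : (m : ℤ) ∣ ((e a : ℕ) : ℤ) - ((e0 a : ℕ) : ℤ) := ⟨_, hv.symm⟩
    have h7 := Int.eq_zero_of_abs_lt_dvd h6 (by rw [abs_lt]; constructor <;> linarith)
    omega
  · intro h
    exact absurd (Finset.mem_univ e0) h

end Pool.Agent.W584.RG
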